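import Pool.Agent.Helper855.GkoSanity

/-!
The Goddard-Kent-Olive decomposition for affine `sl_2` does not hold over all algebraically closed
fields of characteristic `p > 2ℓ² + ℓ - 3`: it fails for `ℓ = 3`, `p = 37 > 18`, `n = ε = 0`.

Idea: in characteristic `37` the Virasoro Verma module with `c = 7/10`, `h = 0` has a singular
vector of degree `8` which acts as zero on the highest weight vector of `L_{7/10,0}`. An isomorphism
sends the vacuum vector of `V(2ω_0) ⊗ V(ω_0)` into `V(3ω_0) ⊗ L_{7/10,0}` and to a vector of the form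
`a ⊗ v`, so the same combination of coset operators would kill the vacuum vector. A quadratic
functional in the currents of the first factor shows that it does not.
-/

set_option autoImplicit false

namespace Pool.Agent.Results.MP_4901aa_al.Disproof

open Pool.Agent.Helper855.Gko

/-- Sanity check: the modules `LC lam` are simple. -/
theorem simple_check (lam : Fin 2 → ℕ) : IsSimpleModule Aff.UA (Aff.LC lam) := Aff.lc_simple lam

/-- Sanity check: their highest weight vectors are nonzero. -/
theorem vlam_check (lam : Fin 2 → ℕ) : Aff.vlam lam ≠ 0 := Aff.vlam_ne_zero lam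

/-- Sanity check: the modules `L_{c,h}` are simple. -/
theorem simple_check_vir (F : Type*) [Field F] (c h : F) :
    IsSimpleModule (UVir F) (Simple F c h) := simple_isSimple c h

/-- Sanity check: the operators `x(m)` on the Weyl module `V(k ω_0)` satisfy the relations of the
affine algebra at level `k`, and every vector is killed by all `x(m)` with large `m`. -/
theorem weyl_check (F : Type*) [Field F] (k : ℕ) : AffRep (opW F k 0) (k : F) := affRep_opW F k

/-- Over every field of characteristic `37` there is no isomorphism of `V(2ω_0) ⊗ V(ω_0)` with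
`V(3ω_0) ⊗ L_{7/10,0} ⊕ V(ω_0 + 2ω_1) ⊗ L_{7/10,3/5}` that commutes with all `x(m)` and all `L_m`.
Hence it is not true that the Goddard-Kent-Olive decomposition holds for all `ℓ ≥ 2`, all
algebraically closed fields of characteristic `p > 2ℓ² + ℓ - 3` and all `0 ≤ n ≤ ℓ - 1`,
`ε ∈ {0, 1}`. -/
theorem result :
    (∀ (F : Type) [Field F] [CharP F 37], ¬ HasGKO F 3 0 0) ∧
    ¬ (∀ ℓ : ℕ, 2 ≤ ℓ → ∀ (F : Type) [Field F] [IsAlgClosed F] (p : ℕ) [CharP F p],
      2 * ℓ ^ 2 + ℓ - 3 < p → ∀ n ε : ℕ, n ≤ ℓ - 1 → ε ≤ 1 → HasGKO F ℓ n ε) := by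
  have key : ∀ (F : Type) [Field F] [CharP F 37], ¬ HasGKO F 3 0 0 := by
    intro F _ _
    refine not_gko ?_
    exact_mod_cast CharP.cast_eq_zero F 37
  refine ⟨key, fun H => ?_⟩
  have : Fact (Nat.Prime 37) := ⟨by norm_num⟩
  have : CharP (AlgebraicClosure (ZMod 37)) 37 := inferInstance
  exact key (AlgebraicClosure (ZMod 37))
    (H 3 (by norm_num) (AlgebraicClosure (ZMod 37)) 37 (by norm_num) 0 0 (by norm_num)
      (by norm_num))

end Pool.Agent.Results.MP_4901aa_al.Disproof
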